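import Pool.Agent.Helper73_ED.Final
import Pool.Agent.Helper73_ED.Alg4
import Pool.Agent.Helper73_ED.ModA
import Pool.Agent.Helper73_ED.ModT
import Pool.Agent.Helper73_ED.ModB
import Pool.Agent.Helper73_ED.SpecOne
import Pool.Agent.Helper73_ED.MinOrd
import Pool.Agent.Helper14_ED.Congr
import Pool.Agent.Helper14_ED.OrdOne
import Pool.Agent.Helper14_ED.CondIff
import Pool.Agent.Helper28_ED.Tangent
import Pool.Agent.Helper76_ED.G6
import Pool.Agent.Helper88_ED.Minors
import Pool.Agent.Helper88_ED.OneRoot
import Pool.Agent.Helper88_ED.OrdZero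
import Pool.Agent.Helper88_ED.Palin
import Pool.Agent.Helper88_ED.TwoRoots
import Pool.Agent.Helper92_ED.Isometry
import Pool.Agent.Helper92_ED.TangentTwo
import Pool.Agent.Helper92_ED.Unique

/-!
# The Euclidean distance degree of the secant variety of the rational normal curve

For every `d ≥ 4` the affine cone over `σ₂(v_d(ℙ¹))` has Euclidean distance degree
`(3 d² - 9 d + 2) / 2` for the Frobenius form.
-/

namespace Pool.Agent.Results.MP_625b79_ag.SecantEDDegree

open Helper73_ED

theorem result : ∀ d : ℕ, 4 ≤ d →
    IsEDDegree (frobenius d) (secantCone d) ((3 * d ^ 2 - 9 * d + 2) / 2) :=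
  Helper73_ED.main Helper73_ED.transport Helper92_ED.isometry_statement
    Helper92_ED.tangentTwo_statement Helper28_ED.tangentInf Helper28_ED.tangentDouble
    Helper28_ED.tangentDoubleInf Helper28_ED.tangentOne Helper76_ED.classification
    Helper92_ED.unique_statement Helper14_ED.cond_iff_statement Helper73_ED.bad
    (Helper73_ED.algCount Helper88_ED.ordZero Helper14_ED.ord_one_statement Helper88_ED.palin
      Helper73_ED.specialZero Helper73_ED.minorOrder Helper73_ED.specialOne Helper73_ED.minors
      Helper88_ED.twoRoots Helper88_ED.oneRoot Helper73_ED.dimThm)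

end Pool.Agent.Results.MP_625b79_ag.SecantEDDegree
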